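import Mathlib

/-!
# The five dimensional integer Heisenberg group is distorted in all unitriangular groups

(MP_34ced1_al, Q1.) Let `H` be the integer Heisenberg group of dimension five, generated by
`x₁, y₁, x₂, y₂`, with `[x₁, y₁] = [x₂, y₂] = z` central and all other pairs commuting.

For a homomorphism `φ` to `UT_n(ℤ)` let `α_i` be the `(i, i+1)` entry of `φ`, a homomorphism to `ℤ`.
The `(i, i+2)` entry of `φ z` is the value of the decomposable form `α_i ∧ α_{i+1}` at `(x₁, y₁)` and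
at `(x₂, y₂)`, and this form vanishes at the other pairs. By the Plücker relation it is zero.
So the first two superdiagonals of `φ z` vanish, and `|φ z ^ m|` grows at most like `m ^ (1/3)`,
while `|z ^ m|` grows like `m ^ (1/2)` in `H`.
-/

set_option autoImplicit false

namespace Pool.Agent.Results.MP_34ced1_al.HeisenbergFive

/-! ## Word length and distortion -/

/-- The word length of `g` for the generating set `S`. -/
noncomputable def wlen {G : Type*} [Group G] (S : Set G) (g : G) : ℕ :=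
  sInf {n | ∃ l : List G, l.length = n ∧ (∀ s ∈ l, s ∈ S ∨ s⁻¹ ∈ S) ∧ l.prod = g}

/-- A `τ`-group: a finitely generated torsion-free nilpotent group. -/
structure IsTauGroup (G : Type*) [Group G] : Prop where
  fg : Group.FG G
  torsionFree : ∀ (g : G) (k : ℕ), 0 < k → g ^ k = 1 → g = 1
  nilpotent : Group.IsNilpotent G

/-- The (finitely generated) subgroup `H` is distorted in `K`: for all finite generating sets `S` of
`H` and `T` of `K` there is no `C` with `|h|_S ≤ C |h|_T + C` for all `h ∈ H`. -/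
def Distorted {K : Type*} [Group K] (H : Subgroup K) : Prop :=
  ∀ (S : Set H) (T : Set K), S.Finite → T.Finite → Subgroup.closure S = ⊤ →
    Subgroup.closure T = ⊤ → ∀ C : ℝ, ∃ h : H, C * wlen T (h : K) + C < wlen S h

/-- The group `UT_n(ℤ)` of the upper triangular integer matrices with diagonal entries `1`. -/
def UT (n : ℕ) : Subgroup (Matrix.SpecialLinearGroup (Fin n) ℤ) where
  carrier := {A | (∀ i, A.1 i i = 1) ∧ ∀ i j, j < i → A.1 i j = 0}
  one_mem' := ⟨fun i => by simp, fun i j h => by simp [h.ne']⟩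
  mul_mem' := by
    rintro A B ⟨hA1, hA2⟩ ⟨hB1, hB2⟩
    refine ⟨fun i => ?_, fun i j h => ?_⟩
    · rw [Matrix.SpecialLinearGroup.coe_mul, Matrix.mul_apply, Finset.sum_eq_single i, hA1, hB1,
        one_mul]
      · intro k _ hk
        rcases lt_or_gt_of_ne hk with h | h
        · rw [hA2 i k h, zero_mul]
        · rw [hB2 k i h, mul_zero]
      · simp
    · rw [Matrix.SpecialLinearGroup.coe_mul, Matrix.mul_apply]
      refine Finset.sum_eq_zero fun k _ => ?_
      rcases lt_or_ge k i with h1 | h1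
      · rw [hA2 i k h1, zero_mul]
      · rw [hB2 k j (h.trans_le h1), mul_zero]
  inv_mem' := by
    rintro A ⟨hA1, hA2⟩
    have hmul : ∀ i j, ∑ k, (A⁻¹).1 i k * A.1 k j = (1 : Matrix (Fin n) (Fin n) ℤ) i j := by
      intro i j
      rw [← Matrix.mul_apply, ← Matrix.SpecialLinearGroup.coe_mul, inv_mul_cancel]
      rfl
    have hlow : ∀ (i : Fin n) (m : ℕ), ∀ j : Fin n, (j : ℕ) = m → j < i → (A⁻¹).1 i j = 0 := by
      intro i m
      induction m using Nat.strong_induction_on with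
      | _ m ih =>
        intro j hj hji
        have h1 := hmul i j
        rw [Finset.sum_eq_single j, hA1, mul_one, Matrix.one_apply_ne hji.ne'] at h1
        · exact h1
        · intro k _ hk
          rcases lt_or_gt_of_ne hk with h | h
          · rw [ih k (by rw [← hj]; exact h) k rfl (h.trans hji), zero_mul]
          · rw [hA2 k j h, mul_zero]
        · simp
    refine ⟨fun i => ?_, fun i j h => hlow i j j rfl h⟩
    have h1 := hmul i i
    rw [Finset.sum_eq_single i, hA1, mul_one, Matrix.one_apply_eq] at h1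
    · exact h1
    · intro k _ hk
      rcases lt_or_gt_of_ne hk with h | h
      · rw [hlow i k k rfl h, zero_mul]
      · rw [hA2 k i h, mul_zero]
    · simp

/-- The integer Heisenberg group of dimension five. -/
@[ext]
structure H5 where
  a₁ : ℤ
  a₂ : ℤ
  b₁ : ℤ
  b₂ : ℤ
  c : ℤ

namespace H5

instance : Group H5 where
  mul g h := ⟨g.a₁ + h.a₁, g.a₂ + h.a₂, g.b₁ + h.b₁, g.b₂ + h.b₂,
    g.c + h.c + g.a₁ * h.b₁ + g.a₂ * h.b₂⟩
  one := ⟨0, 0, 0, 0, 0⟩
  inv g := ⟨-g.a₁, -g.a₂, -g.b₁, -g.b₂, -g.c + g.a₁ * g.b₁ + g.a₂ * g.b₂⟩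
  mul_assoc g h k := by
    ext
    · exact add_assoc _ _ _
    · exact add_assoc _ _ _
    · exact add_assoc _ _ _
    · exact add_assoc _ _ _
    · change g.c + h.c + g.a₁ * h.b₁ + g.a₂ * h.b₂ + k.c + (g.a₁ + h.a₁) * k.b₁ +
        (g.a₂ + h.a₂) * k.b₂ = g.c + (h.c + k.c + h.a₁ * k.b₁ + h.a₂ * k.b₂) +
        g.a₁ * (h.b₁ + k.b₁) + g.a₂ * (h.b₂ + k.b₂)
      ring
  one_mul g := by
    ext
    · exact zero_add _
    · exact zero_add _
    · exact zero_add _
    · exact zero_add _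
    · change 0 + g.c + 0 * g.b₁ + 0 * g.b₂ = g.c
      ring
  mul_one g := by
    ext
    · exact add_zero _
    · exact add_zero _
    · exact add_zero _
    · exact add_zero _
    · change g.c + 0 + g.a₁ * 0 + g.a₂ * 0 = g.c
      ring
  inv_mul_cancel g := by
    ext
    · exact neg_add_cancel _
    · exact neg_add_cancel _
    · exact neg_add_cancel _
    · exact neg_add_cancel _
    · change -g.c + g.a₁ * g.b₁ + g.a₂ * g.b₂ + g.c + (-g.a₁) * g.b₁ + (-g.a₂) * g.b₂ = 0
      ring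

@[simp] theorem mul_a₁ (g h : H5) : (g * h).a₁ = g.a₁ + h.a₁ := rfl
@[simp] theorem mul_a₂ (g h : H5) : (g * h).a₂ = g.a₂ + h.a₂ := rfl
@[simp] theorem mul_b₁ (g h : H5) : (g * h).b₁ = g.b₁ + h.b₁ := rfl
@[simp] theorem mul_b₂ (g h : H5) : (g * h).b₂ = g.b₂ + h.b₂ := rfl
@[simp] theorem mul_c (g h : H5) : (g * h).c = g.c + h.c + g.a₁ * h.b₁ + g.a₂ * h.b₂ := rfl
@[simp] theorem one_a₁ : (1 : H5).a₁ = 0 := rfl
@[simp] theorem one_a₂ : (1 : H5).a₂ = 0 := rfl
@[simp] theorem one_b₁ : (1 : H5).b₁ = 0 := rfl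
@[simp] theorem one_b₂ : (1 : H5).b₂ = 0 := rfl
@[simp] theorem one_c : (1 : H5).c = 0 := rfl
@[simp] theorem inv_a₁ (g : H5) : (g⁻¹).a₁ = -g.a₁ := rfl
@[simp] theorem inv_a₂ (g : H5) : (g⁻¹).a₂ = -g.a₂ := rfl
@[simp] theorem inv_b₁ (g : H5) : (g⁻¹).b₁ = -g.b₁ := rfl
@[simp] theorem inv_b₂ (g : H5) : (g⁻¹).b₂ = -g.b₂ := rfl
@[simp] theorem inv_c (g : H5) : (g⁻¹).c = -g.c + g.a₁ * g.b₁ + g.a₂ * g.b₂ := rfl

/-- The generators. -/
def x₁ : H5 := ⟨1, 0, 0, 0, 0⟩
def x₂ : H5 := ⟨0, 1, 0, 0, 0⟩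
def y₁ : H5 := ⟨0, 0, 1, 0, 0⟩
def y₂ : H5 := ⟨0, 0, 0, 1, 0⟩
def z : H5 := ⟨0, 0, 0, 0, 1⟩

/-- The central projection. -/
def proj : H5 →* Multiplicative (ℤ × ℤ × ℤ × ℤ) where
  toFun g := Multiplicative.ofAdd (g.a₁, g.a₂, g.b₁, g.b₂)
  map_one' := rfl
  map_mul' _ _ := rfl

theorem x₁_zpow (m : ℤ) : x₁ ^ m = ⟨m, 0, 0, 0, 0⟩ := by
  induction m with
  | zero => rfl
  | succ n ih => rw [zpow_add_one, ih]; ext <;> simp [x₁]
  | pred n ih => rw [zpow_sub_one, ih]; ext <;> simp [x₁, sub_eq_add_neg]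

theorem x₂_zpow (m : ℤ) : x₂ ^ m = ⟨0, m, 0, 0, 0⟩ := by
  induction m with
  | zero => rfl
  | succ n ih => rw [zpow_add_one, ih]; ext <;> simp [x₂]
  | pred n ih => rw [zpow_sub_one, ih]; ext <;> simp [x₂, sub_eq_add_neg]

theorem y₁_zpow (m : ℤ) : y₁ ^ m = ⟨0, 0, m, 0, 0⟩ := by
  induction m with
  | zero => rfl
  | succ n ih => rw [zpow_add_one, ih]; ext <;> simp [y₁]
  | pred n ih => rw [zpow_sub_one, ih]; ext <;> simp [y₁, sub_eq_add_neg]

theorem y₂_zpow (m : ℤ) : y₂ ^ m = ⟨0, 0, 0, m, 0⟩ := by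
  induction m with
  | zero => rfl
  | succ n ih => rw [zpow_add_one, ih]; ext <;> simp [y₂]
  | pred n ih => rw [zpow_sub_one, ih]; ext <;> simp [y₂, sub_eq_add_neg]

theorem z_zpow (m : ℤ) : z ^ m = ⟨0, 0, 0, 0, m⟩ := by
  induction m with
  | zero => rfl
  | succ n ih => rw [zpow_add_one, ih]; ext <;> simp [z]
  | pred n ih => rw [zpow_sub_one, ih]; ext <;> simp [z, sub_eq_add_neg]

theorem rel₁ : x₁ * y₁ = z * (y₁ * x₁) := by ext <;> simp [x₁, y₁, z]
theorem rel₂ : x₂ * y₂ = z * (y₂ * x₂) := by ext <;> simp [x₂, y₂, z]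
theorem comm_xx : x₁ * x₂ = x₂ * x₁ := by ext <;> simp [x₁, x₂]
theorem comm_xy : x₁ * y₂ = y₂ * x₁ := by ext <;> simp [x₁, y₂]
theorem comm_yx : y₁ * x₂ = x₂ * y₁ := by ext <;> simp [y₁, x₂]
theorem comm_yy : y₁ * y₂ = y₂ * y₁ := by ext <;> simp [y₁, y₂]

theorem closure_gens : Subgroup.closure ({x₁, x₂, y₁, y₂} : Set H5) = ⊤ := by
  rw [eq_top_iff]
  intro g _
  set P := Subgroup.closure ({x₁, x₂, y₁, y₂} : Set H5) with hP
  have h1 : x₁ ∈ P := Subgroup.subset_closure (by simp)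
  have h2 : x₂ ∈ P := Subgroup.subset_closure (by simp)
  have h3 : y₁ ∈ P := Subgroup.subset_closure (by simp)
  have h4 : y₂ ∈ P := Subgroup.subset_closure (by simp)
  have h5 : z ∈ P := by
    have : z = x₁ * y₁ * (y₁ * x₁)⁻¹ := by rw [rel₁, mul_inv_cancel_right]
    rw [this]
    exact P.mul_mem (P.mul_mem h1 h3) (P.inv_mem (P.mul_mem h3 h1))
  have : g = y₁ ^ g.b₁ * y₂ ^ g.b₂ * (x₁ ^ g.a₁ * x₂ ^ g.a₂) * z ^ g.c := by
    rw [x₁_zpow, x₂_zpow, y₁_zpow, y₂_zpow, z_zpow]
    ext <;> simp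
  rw [this]
  exact P.mul_mem (P.mul_mem (P.mul_mem (P.zpow_mem h3 _) (P.zpow_mem h4 _))
    (P.mul_mem (P.zpow_mem h1 _) (P.zpow_mem h2 _))) (P.zpow_mem h5 _)

theorem pow_coords (g : H5) (k : ℕ) : (g ^ k).a₁ = k * g.a₁ ∧ (g ^ k).a₂ = k * g.a₂ ∧
    (g ^ k).b₁ = k * g.b₁ ∧ (g ^ k).b₂ = k * g.b₂ := by
  induction k with
  | zero => simp
  | succ k ih =>
    rw [pow_succ]
    simp only [mul_a₁, mul_a₂, mul_b₁, mul_b₂, ih.1, ih.2.1, ih.2.2.1, ih.2.2.2]
    push_cast
    refine ⟨by ring, by ring, by ring, by ring⟩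

theorem pow_c (g : H5) (h1 : g.a₁ = 0) (h2 : g.a₂ = 0) (k : ℕ) : (g ^ k).c = k * g.c := by
  induction k with
  | zero => simp
  | succ k ih =>
    obtain ⟨p1, p2, -, -⟩ := pow_coords g k
    rw [pow_succ]
    simp only [mul_c, ih, p1, p2, h1, h2]
    push_cast
    ring

theorem isTauGroup : IsTauGroup H5 where
  fg := Group.fg_iff.2 ⟨_, closure_gens, by simp⟩
  torsionFree := by
    intro g k hk hg
    obtain ⟨p1, p2, p3, p4⟩ := pow_coords g k
    have hk' : (k : ℤ) ≠ 0 := by exact_mod_cast hk.ne'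
    rw [hg] at p1 p2 p3 p4
    have q1 : g.a₁ = 0 := (mul_eq_zero.1 p1.symm).resolve_left hk'
    have q2 : g.a₂ = 0 := (mul_eq_zero.1 p2.symm).resolve_left hk'
    have q3 : g.b₁ = 0 := (mul_eq_zero.1 p3.symm).resolve_left hk'
    have q4 : g.b₂ = 0 := (mul_eq_zero.1 p4.symm).resolve_left hk'
    have p5 := pow_c g q1 q2 k
    rw [hg] at p5
    have q5 : g.c = 0 := (mul_eq_zero.1 p5.symm).resolve_left hk'
    ext <;> simp [q1, q2, q3, q4, q5]
  nilpotent := by
    refine Subgroup.isNilpotent_of_ker_le_center proj ?_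
    intro g hg
    have h1 : (g.a₁, g.a₂, g.b₁, g.b₂) = (0, 0, 0, 0) := Multiplicative.ofAdd.injective hg
    simp only [Prod.mk.injEq] at h1
    obtain ⟨q1, q2, q3, q4⟩ := h1
    rw [Subgroup.mem_center_iff]
    intro h
    ext <;> simp [q1, q2, q3, q4, add_comm]

end H5

/-! ## Lemmas on word length -/

section

variable {G : Type*} [Group G] {S : Set G}

theorem exists_word (hg : Subgroup.closure S = ⊤) (g : G) :
    ∃ l : List G, (∀ s ∈ l, s ∈ S ∨ s⁻¹ ∈ S) ∧ l.prod = g := by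
  have h : g ∈ Subgroup.closure S := by rw [hg]; trivial
  rw [← Subgroup.mem_toSubmonoid, Subgroup.closure_toSubmonoid] at h
  obtain ⟨l, hl, hp⟩ := Submonoid.exists_list_of_mem_closure h
  exact ⟨l, fun s hsl => hl s hsl, hp⟩

theorem wlen_spec (hg : Subgroup.closure S = ⊤) (g : G) :
    ∃ l : List G, l.length = wlen S g ∧ (∀ s ∈ l, s ∈ S ∨ s⁻¹ ∈ S) ∧ l.prod = g := by
  obtain ⟨l, h1, h2⟩ := exists_word hg g
  exact Nat.sInf_mem (s := {n | ∃ l : List G, l.length = n ∧ (∀ s ∈ l, s ∈ S ∨ s⁻¹ ∈ S) ∧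
    l.prod = g}) ⟨l.length, l, rfl, h1, h2⟩

theorem wlen_le {l : List G} (h : ∀ s ∈ l, s ∈ S ∨ s⁻¹ ∈ S) : wlen S l.prod ≤ l.length :=
  Nat.sInf_le ⟨l, rfl, h, rfl⟩

theorem wlen_one : wlen S (1 : G) = 0 := by
  have := wlen_le (S := S) (l := ([] : List G)) (by simp)
  simpa using this

theorem wlen_mul (hg : Subgroup.closure S = ⊤) (g h : G) :
    wlen S (g * h) ≤ wlen S g + wlen S h := by
  obtain ⟨l, h1, h2, h3⟩ := wlen_spec hg g
  obtain ⟨l', h1', h2', h3'⟩ := wlen_spec hg h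
  have := wlen_le (S := S) (l := l ++ l') (by
    intro s hsl
    rcases List.mem_append.1 hsl with h | h
    · exact h2 s h
    · exact h2' s h)
  rwa [List.prod_append, List.length_append, h1, h1', h3, h3'] at this

theorem wlen_inv (hg : Subgroup.closure S = ⊤) (g : G) : wlen S g⁻¹ ≤ wlen S g := by
  obtain ⟨l, h1, h2, h3⟩ := wlen_spec hg g
  have := wlen_le (S := S) (l := (l.map fun x => x⁻¹).reverse) (by
    intro s hsl
    rw [List.mem_reverse, List.mem_map] at hsl
    obtain ⟨a, ha, rfl⟩ := hsl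
    rw [inv_inv]
    exact (h2 a ha).symm)
  rwa [← List.prod_inv_reverse, List.length_reverse, List.length_map, h1, h3] at this

theorem wlen_pow (hg : Subgroup.closure S = ⊤) (g : G) (n : ℕ) :
    wlen S (g ^ n) ≤ n * wlen S g := by
  induction n with
  | zero => simp [wlen_one]
  | succ n ih =>
    rw [pow_succ, Nat.succ_mul]
    exact (wlen_mul hg _ _).trans (add_le_add_left ih _)

theorem wlen_zpow (hg : Subgroup.closure S = ⊤) (g : G) (n : ℤ) :
    wlen S (g ^ n) ≤ n.natAbs * wlen S g := by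
  rcases Int.natAbs_eq n with h | h
  · rw [h, zpow_natCast, Int.natAbs_natCast]
    exact wlen_pow hg g _
  · rw [h, zpow_neg, zpow_natCast, Int.natAbs_neg, Int.natAbs_natCast]
    exact (wlen_inv hg _).trans (wlen_pow hg g _)

end

/-! ## Elementary matrices and word length in `UT_n(ℤ)` -/

section

variable {n : ℕ}

theorem det_eq_one {A : Matrix (Fin n) (Fin n) ℤ} (h1 : ∀ i, A i i = 1)
    (h2 : ∀ i j, j < i → A i j = 0) : A.det = 1 := by
  rw [Matrix.det_of_isUpperTriangular (fun i j h => h2 i j h)]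
  simp [h1]

/-- The element of `UT_n(ℤ)` with a given matrix. -/
def mk (A : Matrix (Fin n) (Fin n) ℤ) (h1 : ∀ i, A i i = 1) (h2 : ∀ i j, j < i → A i j = 0) :
    UT n := ⟨⟨A, det_eq_one h1 h2⟩, h1, h2⟩

/-- The matrix of an element of `UT_n(ℤ)`. -/
def mat (g : UT n) : Matrix (Fin n) (Fin n) ℤ := g.1.1

theorem mat_mk (A : Matrix (Fin n) (Fin n) ℤ) (h1 : ∀ i, A i i = 1)
    (h2 : ∀ i j, j < i → A i j = 0) : mat (mk A h1 h2) = A := rfl

theorem mat_mul (g h : UT n) : mat (g * h) = mat g * mat h := rfl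

theorem mat_one : mat (1 : UT n) = 1 := rfl

theorem mat_inj {g h : UT n} (H : mat g = mat h) : g = h := Subtype.ext (Subtype.ext H)

theorem mat_diag (g : UT n) (i : Fin n) : mat g i i = 1 := g.2.1 i

theorem mat_low (g : UT n) {i j : Fin n} (h : j < i) : mat g i j = 0 := g.2.2 i j h

/-- The matrix with row `k` equal to `r` to the right of the diagonal and other entries zero. -/
def Qm (k : Fin n) (r : Fin n → ℤ) : Matrix (Fin n) (Fin n) ℤ :=
  Matrix.of fun i j => if i = k ∧ k < j then r j else 0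

theorem Qm_add (k : Fin n) (r r' : Fin n → ℤ) : Qm k (r + r') = Qm k r + Qm k r' := by
  ext i j
  simp only [Qm, Matrix.of_apply, Matrix.add_apply, Pi.add_apply]
  split_ifs <;> simp

theorem Qm_mul (k : Fin n) (r r' : Fin n → ℤ) : Qm k r * Qm k r' = 0 := by
  ext i j
  rw [Matrix.mul_apply]
  refine Finset.sum_eq_zero fun m _ => ?_
  simp only [Qm, Matrix.of_apply]
  by_cases h : m = k
  · subst h
    simp
  · simp [h]

/-- The element `1 + Qm k r` of `UT_n(ℤ)`. -/
def Rw (k : Fin n) (r : Fin n → ℤ) : UT n :=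
  mk (1 + Qm k r)
    (fun i => by
      simp only [Qm, Matrix.add_apply, Matrix.one_apply_eq, Matrix.of_apply]
      rw [if_neg]
      · rfl
      · rintro ⟨rfl, h⟩
        exact lt_irrefl _ h)
    (fun i j h => by
      simp only [Qm, Matrix.add_apply, Matrix.one_apply_ne h.ne', Matrix.of_apply]
      rw [if_neg]
      · rfl
      · rintro ⟨rfl, h'⟩
        exact lt_asymm h h')

theorem mat_Rw (k : Fin n) (r : Fin n → ℤ) : mat (Rw k r) = 1 + Qm k r := rfl

theorem Rw_add (k : Fin n) (r r' : Fin n → ℤ) : Rw k (r + r') = Rw k r * Rw k r' := by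
  apply mat_inj
  rw [mat_mul, mat_Rw, mat_Rw, mat_Rw, Qm_add, add_mul, mul_add, mul_add, Qm_mul]
  simp only [one_mul, mul_one]
  abel

theorem Rw_zero (k : Fin n) : Rw k (0 : Fin n → ℤ) = 1 := by
  apply mat_inj
  rw [mat_Rw, mat_one]
  ext i j
  simp [Qm]

/-- The elementary matrix `1 + a e_{ij}`. -/
def E (i j : Fin n) (a : ℤ) : UT n := Rw i (Pi.single j a)

theorem Qm_single {i j : Fin n} (h : i < j) (a : ℤ) :
    Qm i (Pi.single j a) = Matrix.single i j a := by
  ext k l
  simp only [Qm, Matrix.of_apply, Matrix.single_apply, Pi.single_apply]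
  by_cases h1 : k = i
  · by_cases h2 : l = j
    · subst h1; subst h2; simp [h]
    · subst h1
      simp [h2, Ne.symm h2]
  · simp [h1, Ne.symm h1]

theorem mat_E {i j : Fin n} (h : i < j) (a : ℤ) : mat (E i j a) = 1 + Matrix.single i j a := by
  rw [E, mat_Rw, Qm_single h]

theorem E_of_not_lt {i j : Fin n} (h : ¬ i < j) (a : ℤ) : E i j a = 1 := by
  apply mat_inj
  rw [E, mat_Rw, mat_one]
  ext k l
  simp only [Qm, Matrix.add_apply, Matrix.of_apply, Pi.single_apply]
  by_cases h2 : l = j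
  · subst h2
    simp [h]
  · simp [h2]

theorem E_add (i j : Fin n) (a b : ℤ) : E i j (a + b) = E i j a * E i j b := by
  rw [E, Pi.single_add, Rw_add]
  rfl

theorem E_zero (i j : Fin n) : E i j 0 = 1 := by
  rw [E, Pi.single_zero, Rw_zero]

theorem E_eq_zpow (i j : Fin n) (a : ℤ) : E i j a = E i j 1 ^ a := by
  have h : ∀ b : ℤ, E i j (b - 1) = E i j b * (E i j 1)⁻¹ := by
    intro b
    rw [eq_mul_inv_iff_mul_eq, ← E_add, sub_add_cancel]
  induction a with
  | zero => rw [E_zero, zpow_zero]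
  | succ m ih => rw [E_add, ih, zpow_add_one]
  | pred m ih => rw [h, ih, zpow_sub_one]

theorem E_comm {i j k : Fin n} (h1 : i < j) (h2 : j < k) (a b : ℤ) :
    E i k (a * b) = E i j a * E j k b * E i j (-a) * E j k (-b) := by
  apply mat_inj
  rw [mat_mul, mat_mul, mat_mul, mat_E (h1.trans h2), mat_E h1, mat_E h2, mat_E h1, mat_E h2]
  have hX : Matrix.single i j (-a) = -Matrix.single i j a := (Matrix.single_neg _ _ _).symm
  have hY : Matrix.single j k (-b) = -Matrix.single j k b := (Matrix.single_neg _ _ _).symm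
  have hXY : Matrix.single i j a * Matrix.single j k b = Matrix.single i k (a * b) :=
    by simp
  have hYX : Matrix.single j k b * Matrix.single i j a = 0 :=
    Matrix.single_mul_single_of_ne _ _ _ _ (h1.trans h2).ne' _
  have hXX : Matrix.single i j a * Matrix.single i j a = 0 :=
    Matrix.single_mul_single_of_ne _ _ _ _ h1.ne' _
  have hYY : Matrix.single j k b * Matrix.single j k b = 0 :=
    Matrix.single_mul_single_of_ne _ _ _ _ h2.ne' _
  rw [hX, hY, ← hXY]
  generalize Matrix.single i j a = X at *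
  generalize Matrix.single j k b = Y at *
  have key : (1 + X) * (1 + Y) * (1 + -X) * (1 + -Y) = 1 + X * Y - X * X + X * X * Y - Y * X -
      Y * Y + Y * X * Y - X * (Y * X) - X * (Y * Y) + X * (Y * X) * Y := by
    noncomm_ring
  rw [key, hXX, hYX, hYY]
  simp

variable {T : Set (UT n)}

theorem E_bound (hT : Subgroup.closure T = ⊤) : ∃ K : ℕ, ∀ (i j : Fin n) (a : ℤ),
    wlen T (E i j a) ≤ K * a.natAbs := by
  refine ⟨∑ i, ∑ j, wlen T (E i j 1 : UT n), fun i j a => ?_⟩
  rw [E_eq_zpow, mul_comm]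
  refine (wlen_zpow hT _ _).trans (Nat.mul_le_mul_left _ ?_)
  refine le_trans ?_ (Finset.single_le_sum (f := fun i => ∑ j, wlen T (E i j 1 : UT n))
    (fun _ _ => Nat.zero_le _) (Finset.mem_univ i))
  exact Finset.single_le_sum (f := fun j => wlen T (E i j 1 : UT n))
    (fun _ _ => Nat.zero_le _) (Finset.mem_univ j)

theorem E_bound_deep (hT : Subgroup.closure T = ⊤) (d : ℕ) : ∃ K : ℕ, ∀ s : ℕ, 1 ≤ s →
    ∀ (i j : Fin n), (j : ℕ) = i + d + 1 → ∀ a : ℤ, a.natAbs ≤ s ^ (d + 1) →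
      wlen T (E i j a) ≤ K * s := by
  obtain ⟨M, hM⟩ := E_bound hT
  induction d with
  | zero =>
    refine ⟨M, fun s _ i j _ a ha => (hM i j a).trans (Nat.mul_le_mul_left _ ?_)⟩
    simpa using ha
  | succ d ih =>
    obtain ⟨K, hK⟩ := ih
    refine ⟨M + K + M + K + M, fun s hs i j hij a ha => ?_⟩
    have hk : (i : ℕ) + 1 < n := by have := j.2; omega
    set k : Fin n := ⟨i + 1, hk⟩ with hkdef
    have hik : i < k := by rw [Fin.lt_def]; simp [hkdef]
    have hkj : k < j := by rw [Fin.lt_def]; simp [hkdef]; omega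
    have hspos : (0 : ℤ) < s := by exact_mod_cast hs
    have hdiv : a = s * (a / s) + a % s := (Int.mul_ediv_add_emod a s).symm
    have hr1 : 0 ≤ a % s := Int.emod_nonneg _ hspos.ne'
    have hr2 : a % s < s := Int.emod_lt_of_pos _ hspos
    have ha' : |a| ≤ (s : ℤ) ^ (d + 1 + 1) := by
      rw [Int.abs_eq_natAbs]
      exact_mod_cast ha
    obtain ⟨ha1, ha2⟩ := abs_le.1 ha'
    have hb : (a / s).natAbs ≤ s ^ (d + 1) := by
      have h1 : a / s ≤ (s : ℤ) ^ (d + 1) := by
        refine Int.ediv_le_of_le_mul hspos ?_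
        rw [← pow_succ]
        exact ha2
      have h2 : -(s : ℤ) ^ (d + 1) ≤ a / s := by
        refine Int.le_ediv_of_mul_le hspos ?_
        rw [neg_mul, ← pow_succ]
        exact ha1
      have h3 : |a / s| ≤ (s : ℤ) ^ (d + 1) := abs_le.2 ⟨h2, h1⟩
      rw [Int.abs_eq_natAbs] at h3
      exact_mod_cast h3
    have hbound1 : wlen T (E i k (s : ℤ)) ≤ M * s := by simpa using hM i k (s : ℤ)
    have hbound2 : wlen T (E i k (-(s : ℤ))) ≤ M * s := by simpa using hM i k (-(s : ℤ))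
    have hbound3 : wlen T (E k j (a / s)) ≤ K * s :=
      hK s hs k j (by simp [hkdef]; omega) _ hb
    have hbound4 : wlen T (E k j (-(a / s))) ≤ K * s :=
      hK s hs k j (by simp [hkdef]; omega) _ (by rwa [Int.natAbs_neg])
    have hbound5 : wlen T (E i j (a % s)) ≤ M * s := by
      refine (hM i j _).trans (Nat.mul_le_mul_left _ ?_)
      omega
    rw [hdiv, E_add, E_comm hik hkj]
    have e1 := wlen_mul hT (E i k (s : ℤ) * E k j (a / s) * E i k (-(s : ℤ)) *
      E k j (-(a / s))) (E i j (a % s))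
    have e2 := wlen_mul hT (E i k (s : ℤ) * E k j (a / s) * E i k (-(s : ℤ)))
      (E k j (-(a / s)))
    have e3 := wlen_mul hT (E i k (s : ℤ) * E k j (a / s)) (E i k (-(s : ℤ)))
    have e4 := wlen_mul hT (E i k (s : ℤ)) (E k j (a / s))
    calc _ ≤ M * s + K * s + M * s + K * s + M * s := by omega
      _ = _ := by ring

theorem row_bound (hT : Subgroup.closure T = ⊤) : ∃ K : ℕ, ∀ s : ℕ, 1 ≤ s →
    ∀ (k : Fin n) (r : Fin n → ℤ), (∀ j, k < j → (r j).natAbs ≤ s ^ ((j : ℕ) - k)) →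
      wlen T (Rw k r) ≤ K * s := by
  have h := fun d => E_bound_deep hT d
  choose K hK using h
  have h1 : ∀ s : ℕ, 1 ≤ s → ∀ (k : Fin n) (r : Fin n → ℤ),
      (∀ j, k < j → (r j).natAbs ≤ s ^ ((j : ℕ) - k)) → ∀ j : Fin n,
      wlen T (E k j (r j)) ≤ (∑ d ∈ Finset.range n, K d) * s := by
    intro s hs k r hr j
    by_cases hkj : k < j
    · have hlt : (k : ℕ) < j := hkj
      have h2 := hK ((j : ℕ) - k - 1) s hs k j (by omega) (r j) (by
        rw [show (j : ℕ) - k - 1 + 1 = j - k by omega]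
        exact hr j hkj)
      refine h2.trans (Nat.mul_le_mul_right _ ?_)
      exact Finset.single_le_sum (f := K) (fun _ _ => Nat.zero_le _)
        (Finset.mem_range.2 (by have := j.2; omega))
    · rw [E_of_not_lt hkj, wlen_one]
      exact Nat.zero_le _
  refine ⟨n * ∑ d ∈ Finset.range n, K d, fun s hs k r hr => ?_⟩
  have h2 : ∀ t : Finset (Fin n), wlen T (Rw k (∑ j ∈ t, Pi.single j (r j))) ≤
      t.card * ((∑ d ∈ Finset.range n, K d) * s) := by
    intro t
    induction t using Finset.induction_on with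
    | empty => simp [Rw_zero, wlen_one]
    | insert a t hat ih =>
      rw [Finset.sum_insert hat, Rw_add, Finset.card_insert_of_notMem hat]
      refine (wlen_mul hT _ _).trans ?_
      have h3 : wlen T (Rw k (Pi.single a (r a))) ≤ (∑ d ∈ Finset.range n, K d) * s :=
        h1 s hs k r hr a
      rw [Nat.succ_mul, Nat.add_comm]
      exact add_le_add ih h3
  have h3 := h2 Finset.univ
  rw [Finset.univ_sum_single, Finset.card_univ, Fintype.card_fin] at h3
  rw [mul_assoc]
  exact h3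

/-- The rows of `A` with index `≥ m` and the rows of the identity with index `< m`. -/
def Bm (A : UT n) (m : ℕ) : UT n :=
  mk (Matrix.of fun i j => if m ≤ (i : ℕ) then mat A i j else (1 : Matrix (Fin n) (Fin n) ℤ) i j)
    (fun i => by simp [mat_diag])
    (fun i j h => by simp [mat_low A h, Matrix.one_apply_ne h.ne'])

theorem mat_Bm (A : UT n) (m : ℕ) (i j : Fin n) : mat (Bm A m) i j =
    if m ≤ (i : ℕ) then mat A i j else (1 : Matrix (Fin n) (Fin n) ℤ) i j := rfl

theorem Bm_zero (A : UT n) : Bm A 0 = A := by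
  apply mat_inj
  ext i j
  simp [mat_Bm]

theorem Bm_top (A : UT n) : Bm A n = 1 := by
  apply mat_inj
  ext i j
  rw [mat_Bm, if_neg (by have := i.2; omega), mat_one]

theorem Bm_step (A : UT n) (m : Fin n) : Bm A m = Bm A (m + 1) * Rw m (mat A m) := by
  apply mat_inj
  ext i j
  rw [mat_mul, mat_Rw, mul_add, mul_one, Matrix.add_apply, Matrix.mul_apply,
    Finset.sum_eq_single m]
  · rw [mat_Bm, mat_Bm, mat_Bm]
    simp only [Qm, Matrix.of_apply, true_and]
    rcases lt_trichotomy i m with h | h | h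
    · have h' : (i : ℕ) < m := h
      rw [if_neg (by omega), if_neg (by omega), if_neg (by omega),
        Matrix.one_apply_ne h.ne, zero_mul, add_zero]
    · subst h
      rw [if_pos le_rfl, if_neg (by omega), if_neg (by omega), Matrix.one_apply_eq, one_mul]
      rcases lt_trichotomy i j with h2 | h2 | h2
      · rw [if_pos h2, Matrix.one_apply_ne h2.ne, zero_add]
      · subst h2
        rw [if_neg (lt_irrefl _), Matrix.one_apply_eq, add_zero, mat_diag]
      · rw [if_neg (lt_asymm h2), Matrix.one_apply_ne h2.ne', add_zero, mat_low A h2]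
    · have h' : (m : ℕ) < i := h
      rw [if_pos (by omega), if_pos (by omega), if_pos (by omega), mat_low A h, zero_mul,
        add_zero]
  · intro k _ hk
    simp [Qm, hk]
  · simp

theorem box_bound (hT : Subgroup.closure T = ⊤) : ∃ K : ℕ, ∀ s : ℕ, 1 ≤ s → ∀ A : UT n,
    (∀ i j, i < j → (mat A i j).natAbs ≤ s ^ ((j : ℕ) - i)) → wlen T A ≤ K * s := by
  obtain ⟨K, hK⟩ := row_bound hT
  refine ⟨n * K, fun s hs A hA => ?_⟩
  have h1 : ∀ m ≤ n, wlen T A ≤ m * (K * s) + wlen T (Bm A m) := by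
    intro m
    induction m with
    | zero => intro _; simp [Bm_zero]
    | succ m ih =>
      intro hm
      refine (ih (by omega)).trans ?_
      have h2 := Bm_step A ⟨m, hm⟩
      rw [h2]
      have h3 := wlen_mul hT (Bm A (m + 1)) (Rw ⟨m, hm⟩ (mat A ⟨m, hm⟩))
      have h4 := hK s hs ⟨m, hm⟩ (mat A ⟨m, hm⟩) (fun j hj => hA _ _ hj)
      simp only [Nat.succ_mul]
      omega
  have h2 := h1 n le_rfl
  rw [Bm_top, wlen_one, add_zero] at h2
  rw [mul_assoc]
  exact h2

/-! ## Powers of a matrix with two vanishing superdiagonals -/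

theorem mat_pow_succ (u : UT n) (m : ℕ) (i j : Fin n) : mat (u ^ (m + 1)) i j =
    mat (u ^ m) i j + ∑ k ∈ Finset.univ.erase j, mat (u ^ m) i k * mat u k j := by
  rw [pow_succ, mat_mul, Matrix.mul_apply, ← Finset.add_sum_erase _ _ (Finset.mem_univ j),
    mat_diag, mul_one]

theorem pow_bound (u : UT n) (hu : ∀ i j : Fin n, i < j → (j : ℕ) < i + 3 → mat u i j = 0)
    (d : ℕ) : ∃ C : ℕ, ∀ s : ℕ, 1 ≤ s → ∀ m ≤ s ^ 3, ∀ i j : Fin n, (j : ℕ) ≤ i + d →
      (mat (u ^ m) i j).natAbs ≤ C * s ^ d := by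
  have hu' : ∀ k j : Fin n, k ≠ j → mat u k j ≠ 0 → (k : ℕ) + 3 ≤ j := by
    intro k j hkj hne
    by_contra hlt
    rcases lt_or_gt_of_ne hkj with h | h
    · exact hne (hu k j h (by omega))
    · exact hne (mat_low u h)
  induction d using Nat.strong_induction_on with
  | _ d ih =>
    rcases Nat.lt_or_ge d 3 with hd | hd
    · refine ⟨1, fun s hs m _ i j hij => ?_⟩
      have h1 : ∀ m : ℕ, (mat (u ^ m) i j) = (1 : Matrix (Fin n) (Fin n) ℤ) i j := by
        intro m
        induction m with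
        | zero => rw [pow_zero, mat_one]
        | succ m ihm =>
          rw [mat_pow_succ, ihm, Finset.sum_eq_zero, add_zero]
          intro k hk
          by_contra hne
          have h2 := hu' k j (Finset.ne_of_mem_erase hk) (right_ne_zero_of_mul hne)
          have h3 : k < i := by rw [Fin.lt_def]; omega
          exact hne (by rw [mat_low _ h3, zero_mul])
      rw [h1, one_mul, Matrix.one_apply]
      have : 1 ≤ s ^ d := Nat.one_le_pow _ _ hs
      split_ifs <;> simp [this]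
    · obtain ⟨C, hC⟩ := ih (d - 3) (by omega)
      set M : ℕ := ∑ k, ∑ j, (mat u k j).natAbs with hM
      have hcol : ∀ j, ∑ k, (mat u k j).natAbs ≤ M := by
        intro j
        rw [hM, Finset.sum_comm]
        exact Finset.single_le_sum (f := fun j => ∑ k, (mat u k j).natAbs)
          (fun _ _ => Nat.zero_le _) (Finset.mem_univ j)
      refine ⟨1 + C * M, fun s hs m hm i j hij => ?_⟩
      have h1 : ∀ m ≤ s ^ 3, (mat (u ^ m) i j).natAbs ≤ 1 + m * (C * s ^ (d - 3) * M) := by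
        intro m
        induction m with
        | zero =>
          intro _
          rw [pow_zero, mat_one, Matrix.one_apply]
          split_ifs <;> simp
        | succ m ihm =>
          intro hm
          rw [mat_pow_succ]
          refine (Int.natAbs_add_le _ _).trans ?_
          have h2 := ihm (by omega)
          have h3 : (∑ k ∈ Finset.univ.erase j, mat (u ^ m) i k * mat u k j).natAbs ≤
              C * s ^ (d - 3) * M := by
            refine (Int.natAbs_sum_le _ _).trans ?_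
            calc ∑ k ∈ Finset.univ.erase j, (mat (u ^ m) i k * mat u k j).natAbs
                ≤ ∑ k ∈ Finset.univ.erase j, C * s ^ (d - 3) * (mat u k j).natAbs := by
                  refine Finset.sum_le_sum fun k hk => ?_
                  rw [Int.natAbs_mul]
                  by_cases hne : mat u k j = 0
                  · simp [hne]
                  · have h4 := hu' k j (Finset.ne_of_mem_erase hk) hne
                    exact Nat.mul_le_mul_right _ (hC s hs m (by omega) i k (by omega))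
              _ ≤ ∑ k, C * s ^ (d - 3) * (mat u k j).natAbs :=
                  Finset.sum_le_sum_of_subset (Finset.erase_subset _ _)
              _ = C * s ^ (d - 3) * ∑ k, (mat u k j).natAbs := by rw [Finset.mul_sum]
              _ ≤ C * s ^ (d - 3) * M := Nat.mul_le_mul_left _ (hcol j)
          rw [Nat.succ_mul]
          omega
      refine (h1 m hm).trans ?_
      have h5 : s ^ d = s ^ 3 * s ^ (d - 3) := by rw [← pow_add]; congr 1; omega
      have h6 : 1 ≤ s ^ d := Nat.one_le_pow _ _ hs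
      calc 1 + m * (C * s ^ (d - 3) * M) ≤ s ^ d + s ^ 3 * (C * s ^ (d - 3) * M) :=
            add_le_add h6 (Nat.mul_le_mul_right _ hm)
        _ = (1 + C * M) * s ^ d := by rw [h5]; ring

theorem cube_bound (hT : Subgroup.closure T = ⊤) (u : UT n)
    (hu : ∀ i j : Fin n, i < j → (j : ℕ) < i + 3 → mat u i j = 0) :
    ∃ K : ℕ, ∀ s : ℕ, 1 ≤ s → wlen T (u ^ (s ^ 3)) ≤ K * s := by
  obtain ⟨K, hK⟩ := box_bound hT
  have h := fun d => pow_bound u hu d
  choose C hC using h
  set D : ℕ := 1 + ∑ d ∈ Finset.range n, C d with hD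
  refine ⟨K * D, fun s hs => ?_⟩
  rw [mul_assoc]
  refine hK (D * s) (Nat.mul_pos (by omega) hs) _ fun i j hij => ?_
  have hij' : (i : ℕ) < j := hij
  have h1 := hC ((j : ℕ) - i) s hs (s ^ 3) le_rfl i j (by omega)
  refine h1.trans ?_
  rw [mul_pow]
  refine Nat.mul_le_mul_right _ ?_
  have h2 : C ((j : ℕ) - i) ≤ D := by
    have := Finset.single_le_sum (f := C) (fun _ _ => Nat.zero_le _)
      (Finset.mem_range.2 (show (j : ℕ) - i < n by have := j.2; omega))
    omega
  refine h2.trans (Nat.le_self_pow (by omega) _)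

/-! ## The first two superdiagonals -/

theorem mul_super1 (g h : UT n) {i j : Fin n} (hij : (j : ℕ) = i + 1) :
    mat (g * h) i j = mat g i j + mat h i j := by
  have hlt : i < j := by rw [Fin.lt_def]; omega
  rw [mat_mul, Matrix.mul_apply, ← Finset.sum_subset (Finset.subset_univ {i, j}),
    Finset.sum_pair hlt.ne, mat_diag, mat_diag]
  · ring
  · intro k _ hk
    simp only [Finset.mem_insert, Finset.mem_singleton, not_or] at hk
    rcases lt_or_ge k i with h1 | h1
    · rw [mat_low g h1, zero_mul]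
    · have h2 : j < k := by
        have h3 : (i : ℕ) ≤ k := h1
        have h4 : (k : ℕ) ≠ i := fun h => hk.1 (Fin.ext h)
        have h5 : (k : ℕ) ≠ j := fun h => hk.2 (Fin.ext h)
        rw [Fin.lt_def]
        omega
      rw [mat_low h h2, mul_zero]

theorem mul_super2 (g h : UT n) {i k j : Fin n} (hik : (k : ℕ) = i + 1) (hkj : (j : ℕ) = k + 1) :
    mat (g * h) i j = mat g i j + mat g i k * mat h k j + mat h i j := by
  have h1 : i ≠ k := by intro h; rw [h] at hik; omega
  have h2 : i ≠ j := by intro h; rw [← h] at hkj; omega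
  have h3 : k ≠ j := by intro h; rw [h] at hkj; omega
  rw [mat_mul, Matrix.mul_apply, ← Finset.sum_subset (Finset.subset_univ {i, k, j}),
    Finset.sum_insert (by simp [h1, h2]), Finset.sum_pair h3, mat_diag, mat_diag]
  · ring
  · intro l _ hl
    simp only [Finset.mem_insert, Finset.mem_singleton, not_or] at hl
    rcases lt_or_ge l i with h4 | h4
    · rw [mat_low g h4, zero_mul]
    · have h5 : j < l := by
        have h6 : (i : ℕ) ≤ l := h4
        have h7 : (l : ℕ) ≠ i := fun h => hl.1 (Fin.ext h)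
        have h8 : (l : ℕ) ≠ k := fun h => hl.2.1 (Fin.ext h)
        have h9 : (l : ℕ) ≠ j := fun h => hl.2.2 (Fin.ext h)
        rw [Fin.lt_def]
        omega
      rw [mat_low h h5, mul_zero]

open H5 in
/-- The first two superdiagonals of `φ z` vanish. -/
theorem super_zero (φ : H5 →* UT n) (i j : Fin n) (hij : i < j) (hji : (j : ℕ) < i + 3) :
    mat (φ z) i j = 0 := by
  have r1 : φ x₁ * φ y₁ = φ z * (φ y₁ * φ x₁) := by
    rw [← map_mul, ← map_mul, ← map_mul, rel₁]
  have r2 : φ x₂ * φ y₂ = φ z * (φ y₂ * φ x₂) := by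
    rw [← map_mul, ← map_mul, ← map_mul, rel₂]
  have r3 : φ x₁ * φ x₂ = φ x₂ * φ x₁ := by rw [← map_mul, ← map_mul, comm_xx]
  have r4 : φ x₁ * φ y₂ = φ y₂ * φ x₁ := by rw [← map_mul, ← map_mul, comm_xy]
  have hsup1 : ∀ i j : Fin n, (j : ℕ) = i + 1 → mat (φ z) i j = 0 := by
    intro i j h
    have h1 := congrArg (fun g => mat g i j) r1
    simp only [mul_super1 _ _ h] at h1
    linarith
  have hlt : (i : ℕ) < j := hij
  rcases Nat.lt_or_ge (j : ℕ) (i + 2) with h | h
  · exact hsup1 i j (by omega)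
  · have hk : (i : ℕ) + 1 < n := by have := j.2; omega
    set k : Fin n := ⟨i + 1, hk⟩ with hkdef
    have hik : (k : ℕ) = i + 1 := rfl
    have hkj : (j : ℕ) = k + 1 := by omega
    have e1 := congrArg (fun g => mat g i j) r1
    have e2 := congrArg (fun g => mat g i j) r2
    have e3 := congrArg (fun g => mat g i j) r3
    have e4 := congrArg (fun g => mat g i j) r4
    simp only [mul_super2 _ _ hik hkj, mul_super1 _ _ hkj, hsup1 i k hik] at e1 e2 e3 e4
    have hsq : mat (φ z) i j * mat (φ z) i j = 0 := by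
      have t1 : mat (φ z) i j = mat (φ x₁) i k * mat (φ y₁) k j -
        mat (φ y₁) i k * mat (φ x₁) k j := by linarith
      have t2 : mat (φ z) i j = mat (φ x₂) i k * mat (φ y₂) k j -
        mat (φ y₂) i k * mat (φ x₂) k j := by linarith
      have t3 : mat (φ x₁) i k * mat (φ x₂) k j - mat (φ x₂) i k * mat (φ x₁) k j = 0 := by
        linarith
      have t4 : mat (φ x₁) i k * mat (φ y₂) k j - mat (φ y₂) i k * mat (φ x₁) k j = 0 := by
        linarith
      calc mat (φ z) i j * mat (φ z) i j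
          = (mat (φ x₁) i k * mat (φ y₁) k j - mat (φ y₁) i k * mat (φ x₁) k j) *
            (mat (φ x₂) i k * mat (φ y₂) k j - mat (φ y₂) i k * mat (φ x₂) k j) := by
              rw [← t1, ← t2]
        _ = (mat (φ x₁) i k * mat (φ x₂) k j - mat (φ x₂) i k * mat (φ x₁) k j) *
              (mat (φ y₁) i k * mat (φ y₂) k j - mat (φ y₂) i k * mat (φ y₁) k j) -
            (mat (φ x₁) i k * mat (φ y₂) k j - mat (φ y₂) i k * mat (φ x₁) k j) *
              (mat (φ y₁) i k * mat (φ x₂) k j - mat (φ x₂) i k * mat (φ y₁) k j) := by ring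
        _ = 0 := by rw [t3, t4]; ring
    exact mul_self_eq_zero.1 hsq

end

/-! ## The lower bound in the Heisenberg group -/

open H5 in
theorem lower_bound (S : Set H5) (hfin : S.Finite) (hS : Subgroup.closure S = ⊤) :
    ∃ M : ℤ, 0 < M ∧ ∀ g : H5, |g.c| ≤ M * (wlen S g : ℤ) ^ 2 := by
  obtain ⟨B, hB0, hB⟩ : ∃ B : ℤ, 0 < B ∧ ∀ s ∈ S, |s.a₁| + |s.a₂| + |s.b₁| + |s.b₂| + |s.c| +
      |(s⁻¹).c| ≤ B := by
    have hnn : ∀ s : H5, 0 ≤ |s.a₁| + |s.a₂| + |s.b₁| + |s.b₂| + |s.c| + |(s⁻¹).c| := fun s => by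
      positivity
    refine ⟨1 + ∑ s ∈ hfin.toFinset, (|s.a₁| + |s.a₂| + |s.b₁| + |s.b₂| + |s.c| + |(s⁻¹).c|),
      ?_, fun s hs => ?_⟩
    · have := Finset.sum_nonneg (s := hfin.toFinset) (fun s _ => hnn s)
      linarith
    · have := Finset.single_le_sum (f := fun s : H5 => |s.a₁| + |s.a₂| + |s.b₁| + |s.b₂| + |s.c| +
        |(s⁻¹).c|) (fun s _ => hnn s) (hfin.mem_toFinset.2 hs)
      linarith
  have hB' : ∀ s : H5, (s ∈ S ∨ s⁻¹ ∈ S) → |s.a₁| ≤ B ∧ |s.a₂| ≤ B ∧ |s.b₁| ≤ B ∧ |s.b₂| ≤ B ∧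
      |s.c| ≤ B := by
    intro s hs
    rcases hs with hs | hs
    · have h := hB s hs
      have h1 := abs_nonneg s.a₁
      have h2 := abs_nonneg s.a₂
      have h3 := abs_nonneg s.b₁
      have h4 := abs_nonneg s.b₂
      have h5 := abs_nonneg s.c
      have h6 := abs_nonneg (s⁻¹).c
      refine ⟨?_, ?_, ?_, ?_, ?_⟩ <;> linarith
    · have h := hB s⁻¹ hs
      rw [inv_inv, inv_a₁, inv_a₂, inv_b₁, inv_b₂, abs_neg, abs_neg, abs_neg, abs_neg] at h
      have h1 := abs_nonneg s.a₁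
      have h2 := abs_nonneg s.a₂
      have h3 := abs_nonneg s.b₁
      have h4 := abs_nonneg s.b₂
      have h5 := abs_nonneg s.c
      have h6 := abs_nonneg (s⁻¹).c
      refine ⟨?_, ?_, ?_, ?_, ?_⟩ <;> linarith
  have hl : ∀ l : List H5, (∀ s ∈ l, s ∈ S ∨ s⁻¹ ∈ S) →
      |l.prod.b₁| ≤ B * l.length ∧ |l.prod.b₂| ≤ B * l.length ∧
      |l.prod.c| ≤ (B + 2 * B ^ 2) * (l.length : ℤ) ^ 2 := by
    intro l
    induction l with
    | nil => intro _; simp
    | cons s l ih =>
      intro h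
      obtain ⟨h1, h2, h3⟩ := ih fun t ht => h t (List.mem_cons_of_mem _ ht)
      obtain ⟨t1, t2, t3, t4, t5⟩ := hB' s (h s List.mem_cons_self)
      have hn : (0 : ℤ) ≤ l.length := Int.natCast_nonneg _
      rw [List.prod_cons, List.length_cons]
      push_cast
      simp only [mul_b₁, mul_b₂, mul_c]
      refine ⟨?_, ?_, ?_⟩
      · have := abs_add_le s.b₁ l.prod.b₁
        linarith
      · have := abs_add_le s.b₂ l.prod.b₂
        linarith
      · have e1 : |s.a₁ * l.prod.b₁| ≤ B * (B * l.length) := by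
          rw [abs_mul]
          exact mul_le_mul t1 h1 (abs_nonneg _) hB0.le
        have e2 : |s.a₂ * l.prod.b₂| ≤ B * (B * l.length) := by
          rw [abs_mul]
          exact mul_le_mul t2 h2 (abs_nonneg _) hB0.le
        have e3 := abs_add_le (s.c + l.prod.c + s.a₁ * l.prod.b₁) (s.a₂ * l.prod.b₂)
        have e4 := abs_add_le (s.c + l.prod.c) (s.a₁ * l.prod.b₁)
        have e5 := abs_add_le s.c l.prod.c
        have e6 : 0 ≤ B * (l.length : ℤ) := mul_nonneg hB0.le hn
        have e7 : 0 ≤ B ^ 2 * (l.length : ℤ) := mul_nonneg (sq_nonneg _) hn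
        nlinarith [sq_nonneg B]
  refine ⟨B + 2 * B ^ 2, by positivity, fun g => ?_⟩
  obtain ⟨l, h1, h2, h3⟩ := wlen_spec hS g
  have := (hl l h2).2.2
  rwa [h1, h3] at this

theorem wlen_pullback {G K : Type*} [Group G] [Group K] (e : G ≃* K) (S : Set K)
    (hS : Subgroup.closure S = ⊤) (g : G) : wlen (e ⁻¹' S) g ≤ wlen S (e g) := by
  obtain ⟨l, h1, h2, h3⟩ := wlen_spec hS (e g)
  have h4 := wlen_le (S := e ⁻¹' S) (l := l.map e.symm) (by
    intro s hs
    rw [List.mem_map] at hs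
    obtain ⟨a, ha, rfl⟩ := hs
    rw [Set.mem_preimage, Set.mem_preimage, map_inv, MulEquiv.apply_symm_apply]
    exact h2 a ha)
  rwa [← map_list_prod, h3, MulEquiv.symm_apply_apply, List.length_map, h1] at h4

theorem closure_pullback {G K : Type*} [Group G] [Group K] (e : G ≃* K) (S : Set K)
    (hS : Subgroup.closure S = ⊤) : Subgroup.closure (e ⁻¹' S) = ⊤ := by
  have h : e ⁻¹' S = e.symm '' S := by
    ext x
    constructor
    · intro hx
      exact ⟨e x, hx, e.symm_apply_apply x⟩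
    · rintro ⟨y, hy, rfl⟩
      simpa using hy
  rw [h, ← MulEquiv.coe_toMonoidHom, ← MonoidHom.map_closure, hS]
  exact Subgroup.map_top_of_surjective _ e.symm.surjective

open H5 in
/-- The five dimensional integer Heisenberg group is a `τ`-group, and the image of every embedding
of it into a group `UT_n(ℤ)` is distorted. -/
theorem result : IsTauGroup H5 ∧
    ∀ (n : ℕ) (φ : H5 →* UT n), Function.Injective φ → Distorted φ.range := by
  refine ⟨isTauGroup, fun n φ hφ S T hSf hTf hS hT C => ?_⟩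
  by_contra hcon
  push Not at hcon
  set e : H5 ≃* φ.range := MonoidHom.ofInjective hφ with he
  have hef : (e ⁻¹' S).Finite := hSf.preimage (e.injective.injOn)
  obtain ⟨M, hM0, hM⟩ := lower_bound (e ⁻¹' S) hef (closure_pullback e S hS)
  obtain ⟨K, hK⟩ := cube_bound hT (φ z) (fun i j h1 h2 => super_zero φ i j h1 h2)
  set D : ℝ := |C| * (K + 1) with hD
  have hD0 : 0 ≤ D := by positivity
  obtain ⟨s, hs⟩ := exists_nat_gt (M * D ^ 2)
  have hMR : (0 : ℝ) < M := by exact_mod_cast hM0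
  have hs1 : 1 ≤ s := by
    rcases Nat.eq_zero_or_pos s with h | h
    · subst h
      have : (0 : ℝ) ≤ M * D ^ 2 := by positivity
      simp only [Nat.cast_zero] at hs
      linarith
    · exact h
  have hs1R : (1 : ℝ) ≤ s := by exact_mod_cast hs1
  have h1 : (wlen (e ⁻¹' S) (z ^ (s ^ 3)) : ℝ) ≤ D * s := by
    have a1 : wlen (e ⁻¹' S) (z ^ (s ^ 3)) ≤ wlen S (e (z ^ (s ^ 3))) := wlen_pullback e S hS _
    have a2 := hcon (e (z ^ (s ^ 3)))
    have a3 : ((e (z ^ (s ^ 3)) : φ.range) : UT n) = φ z ^ (s ^ 3) := by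
      rw [he, MonoidHom.ofInjective_apply, map_pow]
    rw [a3] at a2
    have a4 := hK s hs1
    have a5 : (wlen T (φ z ^ (s ^ 3)) : ℝ) ≤ K * s := by exact_mod_cast a4
    have a6 : (wlen (e ⁻¹' S) (z ^ (s ^ 3)) : ℝ) ≤ wlen S (e (z ^ (s ^ 3))) := by
      exact_mod_cast a1
    have a7 : C * wlen T (φ z ^ (s ^ 3)) ≤ |C| * (K * s) :=
      mul_le_mul (le_abs_self C) a5 (Nat.cast_nonneg _) (abs_nonneg C)
    have a8 : C ≤ |C| * s := by
      calc C ≤ |C| := le_abs_self C
        _ = |C| * 1 := (mul_one _).symm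
        _ ≤ |C| * s := mul_le_mul_of_nonneg_left hs1R (abs_nonneg C)
    rw [hD]
    nlinarith
  have h2 := hM (z ^ (s ^ 3))
  have h3 : (z ^ (s ^ 3)).c = (s : ℤ) ^ 3 := by
    rw [pow_c z rfl rfl]
    simp [z]
  rw [h3, abs_of_nonneg (by positivity)] at h2
  have h4 : (s : ℝ) ^ 3 ≤ M * (wlen (e ⁻¹' S) (z ^ (s ^ 3)) : ℝ) ^ 2 := by exact_mod_cast h2
  have h5 : (wlen (e ⁻¹' S) (z ^ (s ^ 3)) : ℝ) ^ 2 ≤ (D * s) ^ 2 :=
    pow_le_pow_left₀ (Nat.cast_nonneg _) h1 2
  have h6 : (s : ℝ) ^ 3 ≤ M * D ^ 2 * s ^ 2 := by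
    calc (s : ℝ) ^ 3 ≤ M * (wlen (e ⁻¹' S) (z ^ (s ^ 3)) : ℝ) ^ 2 := h4
      _ ≤ M * (D * s) ^ 2 := mul_le_mul_of_nonneg_left h5 hMR.le
      _ = M * D ^ 2 * s ^ 2 := by ring
  have h7 : (0 : ℝ) < (s : ℝ) ^ 2 := by positivity
  have h8 : M * D ^ 2 * (s : ℝ) ^ 2 < s * s ^ 2 := mul_lt_mul_of_pos_right hs h7
  nlinarith

end Pool.Agent.Results.MP_34ced1_al.HeisenbergFive
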